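import Pool.Agent.H18.TD.Targets

/-!
Row REP of the board td1_modules (MP_58ae59_nt): calculus of representations.
-/

set_option autoImplicit false

open Polynomial Module Filter Topology Pool.Agent.H18.TD

namespace Pool.Agent.H37.TD

/-- the length of an integer polynomial -/
noncomputable def len {ι : Type} (Φ : MvPolynomial ι ℤ) : ℝ :=
  ∑ m ∈ Φ.support, |((MvPolynomial.coeff m Φ : ℤ) : ℝ)|

theorem len_nonneg {ι : Type} (Φ : MvPolynomial ι ℤ) : 0 ≤ len Φ :=
  Finset.sum_nonneg fun _ _ => abs_nonneg _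

theorem len_subset {ι : Type} (Φ : MvPolynomial ι ℤ) (s : Finset (ι →₀ ℕ))
    (h : Φ.support ⊆ s) : len Φ = ∑ m ∈ s, |((MvPolynomial.coeff m Φ : ℤ) : ℝ)| := by
  refine Finset.sum_subset h fun m _ hm => ?_
  rw [MvPolynomial.notMem_support_iff.1 hm]
  simp

theorem len_zero {ι : Type} : len (0 : MvPolynomial ι ℤ) = 0 := by
  simp [len]

theorem len_add {ι : Type} (Φ Ψ : MvPolynomial ι ℤ) : len (Φ + Ψ) ≤ len Φ + len Ψ := by
  classical
  rw [len_subset (Φ + Ψ) (Φ.support ∪ Ψ.support) MvPolynomial.support_add,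
    len_subset Φ (Φ.support ∪ Ψ.support) Finset.subset_union_left,
    len_subset Ψ (Φ.support ∪ Ψ.support) Finset.subset_union_right, ← Finset.sum_add_distrib]
  refine Finset.sum_le_sum fun m _ => ?_
  rw [MvPolynomial.coeff_add, Int.cast_add]
  exact abs_add_le _ _

theorem len_sum {ι Ω : Type} (s : Finset Ω) (f : Ω → MvPolynomial ι ℤ) :
    len (∑ w ∈ s, f w) ≤ ∑ w ∈ s, len (f w) := by
  classical
  induction s using Finset.induction_on with
  | empty => simp [len_zero]
  | insert w s hw ih =>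
    rw [Finset.sum_insert hw, Finset.sum_insert hw]
    exact (len_add _ _).trans (by linarith)

theorem len_monomial_mul {ι : Type} (m : ι →₀ ℕ) (a : ℤ) (Ψ : MvPolynomial ι ℤ) :
    len (MvPolynomial.monomial m a * Ψ) ≤ |(a : ℝ)| * len Ψ := by
  classical
  have hs : (MvPolynomial.monomial m a * Ψ).support ⊆ Ψ.support.image (fun n => m + n) := by
    intro k hk
    rw [MvPolynomial.mem_support_iff, MvPolynomial.coeff_monomial_mul'] at hk
    by_cases h : m ≤ k
    · rw [if_pos h] at hk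
      refine Finset.mem_image.2 ⟨k - m, ?_, add_tsub_cancel_of_le h⟩
      rw [MvPolynomial.mem_support_iff]
      intro h0
      exact hk (by rw [h0, mul_zero])
    · rw [if_neg h] at hk
      exact absurd rfl hk
  rw [len_subset _ _ hs, Finset.sum_image (fun _ _ _ _ h => add_left_cancel h), len,
    Finset.mul_sum]
  refine le_of_eq (Finset.sum_congr rfl fun n _ => ?_)
  rw [MvPolynomial.coeff_monomial_mul, Int.cast_mul, abs_mul]

theorem len_mul {ι : Type} (Φ Ψ : MvPolynomial ι ℤ) : len (Φ * Ψ) ≤ len Φ * len Ψ := by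
  have h : Φ * Ψ = ∑ m ∈ Φ.support, MvPolynomial.monomial m (MvPolynomial.coeff m Φ) * Ψ := by
    rw [← Finset.sum_mul, ← MvPolynomial.as_sum]
  rw [h]
  refine (len_sum _ _).trans ?_
  rw [len, Finset.sum_mul]
  exact Finset.sum_le_sum fun m _ => len_monomial_mul _ _ _

theorem rep_iff {ι : Type} (x : ι → ℂ) (δ : ℕ) (L : ℝ) (z : ℂ) : Rep x δ L z ↔
    ∃ Φ : MvPolynomial ι ℤ, Φ.totalDegree ≤ δ ∧ len Φ ≤ L ∧ MvPolynomial.aeval x Φ = z :=
  Iff.rfl

theorem rep_int {ι : Type} (x : ι → ℂ) (n : ℤ) : Rep x 0 |(n : ℝ)| (n : ℂ) := by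
  rw [rep_iff]
  refine ⟨MvPolynomial.C n, (MvPolynomial.totalDegree_C n).le, ?_, ?_⟩
  · rw [len_subset (MvPolynomial.C n) {0} MvPolynomial.support_monomial_subset,
      Finset.sum_singleton, MvPolynomial.coeff_zero_C]
  · rw [MvPolynomial.aeval_C]
    simp

theorem rep_mono {ι : Type} (x : ι → ℂ) (δ δ' : ℕ) (L L' : ℝ) (z : ℂ) (hδ : δ ≤ δ')
    (hL : L ≤ L') (h : Rep x δ L z) : Rep x δ' L' z := by
  rw [rep_iff] at h ⊢
  obtain ⟨Φ, h1, h2, h3⟩ := h
  exact ⟨Φ, h1.trans hδ, h2.trans hL, h3⟩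

theorem rep_var {ι : Type} (x : ι → ℂ) (i : ι) : Rep x 1 1 (x i) := by
  classical
  rw [rep_iff]
  refine ⟨MvPolynomial.X i, (MvPolynomial.totalDegree_X i).le, ?_, MvPolynomial.aeval_X x i⟩
  rw [len_subset (MvPolynomial.X i) {Finsupp.single i 1} MvPolynomial.support_monomial_subset,
    Finset.sum_singleton, MvPolynomial.coeff_X]
  simp

theorem rep_add {ι : Type} (x : ι → ℂ) (δ : ℕ) (L L' : ℝ) (z z' : ℂ) (h : Rep x δ L z)
    (h' : Rep x δ L' z') : Rep x δ (L + L') (z + z') := by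
  rw [rep_iff] at h h' ⊢
  obtain ⟨Φ, h1, h2, h3⟩ := h
  obtain ⟨Ψ, h1', h2', h3'⟩ := h'
  exact ⟨Φ + Ψ, (MvPolynomial.totalDegree_add _ _).trans (max_le h1 h1'),
    (len_add _ _).trans (add_le_add h2 h2'), by rw [map_add, h3, h3']⟩

theorem rep_mul {ι : Type} (x : ι → ℂ) (δ δ' : ℕ) (L L' : ℝ) (z z' : ℂ) (h : Rep x δ L z)
    (h' : Rep x δ' L' z') : Rep x (δ + δ') (L * L') (z * z') := by
  rw [rep_iff] at h h' ⊢
  obtain ⟨Φ, h1, h2, h3⟩ := h
  obtain ⟨Ψ, h1', h2', h3'⟩ := h'
  exact ⟨Φ * Ψ, (MvPolynomial.totalDegree_mul _ _).trans (add_le_add h1 h1'),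
    (len_mul _ _).trans (mul_le_mul h2 h2' (len_nonneg _) ((len_nonneg _).trans h2)),
    by rw [map_mul, h3, h3']⟩

theorem rep_one {ι : Type} (x : ι → ℂ) : Rep x 0 1 1 := by
  simpa using rep_int x 1

theorem rep_zero {ι : Type} (x : ι → ℂ) (δ : ℕ) : Rep x δ 0 0 :=
  rep_mono x 0 δ 0 0 0 (Nat.zero_le _) le_rfl (by simpa using rep_int x 0)

theorem pf_REP : T_REP := by
  classical
  intro ι x
  refine ⟨rep_int x, rep_mono x, rep_var x, rep_add x, rep_mul x, ?_, ?_, ?_⟩
  · intro δ n L z h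
    induction n with
    | zero => simpa using rep_one x
    | succ n ih =>
      rw [pow_succ, pow_succ, add_mul, one_mul]
      exact rep_mul x _ _ _ _ _ _ ih h
  · intro Ω s δ L z
    induction s using Finset.induction_on with
    | empty =>
      intro _
      simpa using rep_zero x δ
    | insert w s hw ih =>
      intro h
      rw [Finset.sum_insert hw, Finset.sum_insert hw]
      exact rep_add x _ _ _ _ _ (h w (Finset.mem_insert_self w s))
        (ih fun v hv => h v (Finset.mem_insert_of_mem hv))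
  · intro Ω s δ L z
    induction s using Finset.induction_on with
    | empty =>
      intro _
      simpa using rep_one x
    | insert w s hw ih =>
      intro h
      rw [Finset.sum_insert hw, Finset.prod_insert hw, Finset.prod_insert hw]
      exact rep_mul x _ _ _ _ _ _ (h w (Finset.mem_insert_self w s))
        (ih fun v hv => h v (Finset.mem_insert_of_mem hv))

end Pool.Agent.H37.TD
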