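import Pool.Agent.H18.TD.Targets

/-!
Row TCB of the board td1_modules (MP_58ae59_nt): a bound for the Taylor coefficients.
-/

set_option autoImplicit false

open Polynomial Module Filter Topology Pool.Agent.H18.TD

namespace Pool.Agent.H37.TD

theorem pf_TCB : T_TCB := by
  intro μ κ θ R hR
  unfold tc
  by_cases h : μ ≤ κ
  · rw [if_pos h]
    obtain ⟨n, rfl⟩ := Nat.exists_eq_add_of_le h
    rw [Nat.add_sub_cancel_left, norm_div, norm_pow]
    have h1 : ‖((n.factorial : ℕ) : ℂ)‖ = (n.factorial : ℝ) := by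
      rw [Complex.norm_natCast]
    rw [h1]
    have h2 := Real.pow_div_factorial_le_exp (R * ‖θ‖) (mul_nonneg hR (norm_nonneg _)) n
    calc ‖θ‖ ^ n / (n.factorial : ℝ) * R ^ (μ + n)
        = R ^ μ * ((R * ‖θ‖) ^ n / (n.factorial : ℝ)) := by
          rw [pow_add, mul_pow]; ring
      _ ≤ R ^ μ * Real.exp (R * ‖θ‖) :=
          mul_le_mul_of_nonneg_left h2 (pow_nonneg hR _)
  · rw [if_neg h, norm_zero, zero_mul]
    exact mul_nonneg (pow_nonneg hR _) (Real.exp_pos _).le

end Pool.Agent.H37.TD
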